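import Pool.Agent.V11291.AL.Comp3
import Pool.Agent.Helper566.FD.J7
import Pool.Agent.V11291.F9.Low
import Pool.Agent.Results.MP_8b7eba_nt.FixedNumberOfPrimes

/-!
# An algorithm that recognizes the finiteness of the rational zeros for an exactly determined proportion
# of the members of infinite families of polynomials of genus one

A polynomial `f(x, y)` with integral coefficients is given by the list of the lists of its coefficients;
`poly D` is `y² - x³ - 5805 D² x + 285714 D³`.  The curve `E_D : poly D = 0` is the twist by `D` of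
`X_0(14)`.  The class `Adm` consists of the squarefree integers `D`, positive or negative, `1` modulo
`4`, prime to `42`, squares modulo `7`, whose prime divisors split completely in `ℚ(i, √2, √-7)` or are
inert in `ℚ(√2)` and in `ℚ(√-7)`.

Theorem. There is a computable function `g` from the polynomials to `{true, false}` (an algorithm that
halts on all inputs) such that:

* if `g f = true`, then the number of the rational zeros of `f` is finite;
* `g f = true` if and only if `f = poly D` with `D` in the class, `E_D(ℚ)` finite and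
  `Ш(E_D/ℚ)[2] = 0`;
* the proportion of the `D` with `g (poly D) = true` in the class, for the positive and for the negative
  `D`, is exactly `c = ∏_{i ≥ 0} (1 - 2^{-(2 i + 1)}) = 0.4194…`; the number of the `D` of the class up to
  `X`, of a given sign, is at least a constant times `X (log X)^(-5/8)`;
* for the `D` with `k` split prime factors and `a`, `b` inert prime factors `3`, `5` modulo `8`, all in a
  given set `S` of primes of positive lower density (`b` even, `a + b ≥ 1`), the proportion of those with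
  `g (poly D) = true` tends to `∏_{i < (k + 1) / 2} (1 - 2^{-(2 i + 1)})`: `1`, `1/2`, `1/2`, `7/16`, ….

The algorithm recognizes `poly D` and computes the kernel of a matrix of quadratic symbols over the field
with two elements.
-/

set_option autoImplicit false

open Finset Filter Topology

namespace Pool.Agent.Results.MP_d6ddbd_nt.InfinitudeForTwists

open Pool.Agent.Results.MP_8b7eba_nt.FixedNumberOfPrimes (E Adm RankZeroShaTwo Family Rich count
  proportion)

open Pool.Agent.V11291.AL (DD test2)

/-- the set of the rational zeros of the polynomial `f(x, y) = Σ L_ij x^i y^j` -/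
def Zeros (L : List (List ℤ)) : Set (ℚ × ℚ) :=
  {p | ∑ i ∈ range L.length, ∑ j ∈ range (L.getD i []).length,
    (((L.getD i []).getD j 0 : ℤ) : ℚ) * p.1 ^ i * p.2 ^ j = 0}

/-- the polynomial `y² - x³ - 5805 D² x + 285714 D³` -/
def poly (D : ℤ) : List (List ℤ) := [[285714 * D ^ 3, 0, 1], [-5805 * D ^ 2], [], [-1]]

/-- the number of the `D` with `|D| ≤ X` in the class, of the sign of `s`, with `Q D` -/
noncomputable def countSign (s : ℤ) (Q : ℤ → Prop) (X : ℕ) : ℕ :=
  Nat.card {D : ℤ // |D| ≤ X ∧ 0 < s * D ∧ Adm D ∧ Q D}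

/-- `c = ∏_{i ≥ 0} (1 - 2^{-(2 i + 1)})` -/
noncomputable def cc : ℝ := ∏' i : ℕ, (1 - (1 / 2 : ℝ) ^ (2 * i + 1))

/-- the law for the family: the order of magnitude of the number of its members, and the limit of the
proportion of the members with `Q` -/
def Law (S : Set ℕ) (k a b : ℕ) (Q : ℤ → Prop) : Prop :=
  (∃ (c C : ℝ) (X₀ : ℕ), 0 < c ∧ 0 < C ∧ ∀ X : ℕ, X₀ ≤ X →
    c * (X * Real.log (Real.log X) ^ (k + a + b - 1) / Real.log X) ≤ (count (Family S k a b) X : ℝ) ∧
    (count (Family S k a b) X : ℝ) ≤
      C * (X * Real.log (Real.log X) ^ (k + a + b - 1) / Real.log X)) ∧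
  Tendsto (fun X : ℕ => (count (fun D => Family S k a b D ∧ Q D) X : ℝ) /
    (count (Family S k a b) X : ℝ)) atTop (𝓝 (proportion k))

/-- the test on polynomials -/
def tst (L : List (List ℤ)) : Prop :=
  ∃ N < (-((L.getD 1 []).getD 0 0)).toNat + 2,
    L = [[285714 * (DD N * (DD N * DD N)), 0, 1], [-5805 * (DD N * DD N)], [], [-1]] ∧ test2 N

open Pool.Agent.Helper566.FD.J7 (prim_natCast prim_int_sub prim_int_mul prim_int_neg prim_toNat_neg)

theorem prim_DD : Primrec DD := by
  unfold DD
  refine prim_int_mul.comp prim_natCast (prim_int_sub.comp (Primrec.const 2)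
    (prim_natCast.comp (Primrec.nat_mod.comp Primrec.id (Primrec.const 4))))

theorem prim_tst : PrimrecPred tst := by
  unfold tst
  refine Pool.Agent.V11291.AL.ex_lt (R := fun (N : ℕ) (L : List (List ℤ)) =>
    L = [[285714 * (DD N * (DD N * DD N)), 0, 1], [-5805 * (DD N * DD N)], [], [-1]] ∧ test2 N)
    (f := fun L : List (List ℤ) => (-((L.getD 1 []).getD 0 0)).toNat + 2) ?_ ?_
  · have hD : Primrec fun y : ℕ × List (List ℤ) => DD y.1 := prim_DD.comp Primrec.fst
    have h2 : Primrec fun y : ℕ × List (List ℤ) => DD y.1 * DD y.1 := prim_int_mul.comp hD hD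
    have h3 : Primrec fun y : ℕ × List (List ℤ) => DD y.1 * (DD y.1 * DD y.1) :=
      prim_int_mul.comp hD h2
    have h4 : Primrec fun y : ℕ × List (List ℤ) => 285714 * (DD y.1 * (DD y.1 * DD y.1)) :=
      prim_int_mul.comp (Primrec.const 285714) h3
    have h5 : Primrec fun y : ℕ × List (List ℤ) => -5805 * (DD y.1 * DD y.1) :=
      prim_int_mul.comp (Primrec.const (-5805)) h2
    have h6 : Primrec fun y : ℕ × List (List ℤ) =>
        ([285714 * (DD y.1 * (DD y.1 * DD y.1)), 0, 1] : List ℤ) :=
      Primrec.list_cons.comp h4 (Primrec.const [0, 1])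
    have h7 : Primrec fun y : ℕ × List (List ℤ) => ([-5805 * (DD y.1 * DD y.1)] : List ℤ) :=
      Primrec.list_cons.comp h5 (Primrec.const [])
    have h8 : Primrec fun y : ℕ × List (List ℤ) =>
        ([[285714 * (DD y.1 * (DD y.1 * DD y.1)), 0, 1], [-5805 * (DD y.1 * DD y.1)], [], [-1]] :
          List (List ℤ)) :=
      Primrec.list_cons.comp h6 (Primrec.list_cons.comp h7 (Primrec.const [[], [-1]]))
    exact PrimrecPred.and (Primrec.eq.comp Primrec.snd h8)
      (Pool.Agent.V11291.AL.prim_test2.comp Primrec.fst)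
  · refine Primrec.nat_add.comp (prim_toNat_neg.comp ?_) (Primrec.const 2)
    exact (Primrec.list_getD (0 : ℤ)).comp ((Primrec.list_getD ([] : List ℤ)).comp Primrec.id
      (Primrec.const 1)) (Primrec.const 0)

theorem poly_eq (D : ℤ) :
    poly D = [[285714 * (D * (D * D)), 0, 1], [-5805 * (D * D)], [], [-1]] := by
  unfold poly
  rw [show D ^ 3 = D * (D * D) by ring, show D ^ 2 = D * D by ring]

theorem poly_inj {D D' : ℤ} (h : poly D = poly D') : D = D' := by
  unfold poly at h
  have h1 : 285714 * D ^ 3 = 285714 * D' ^ 3 := by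
    have h2 := congrArg (fun L : List (List ℤ) => (L.getD 0 []).getD 0 0) h
    simpa using h2
  have h3 : D ^ 3 = D' ^ 3 := by linarith
  exact (Odd.strictMono_pow (by decide : Odd 3)).injective h3

theorem tst_iff (L : List (List ℤ)) : tst L ↔ ∃ D : ℤ, L = poly D ∧ Adm D ∧ RankZeroShaTwo D := by
  unfold tst
  constructor
  · rintro ⟨N, -, h1, h2⟩
    obtain ⟨h3, h4, h5⟩ := (Pool.Agent.V11291.AL.test2_iff N).1 h2
    have h3' : Adm (DD N) := h3
    refine ⟨DD N, ?_, h3', ?_⟩
    · rw [poly_eq]
      exact h1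
    · rw [MP_8b7eba_nt.FixedNumberOfPrimes.rzs_iff h3', MP_8b7eba_nt.FixedNumberOfPrimes.R_eq]
      exact h5
  · rintro ⟨D, h1, h2, h3⟩
    have h2' : Pool.Agent.Y687.MQ.AdmD D := h2
    rw [MP_8b7eba_nt.FixedNumberOfPrimes.rzs_iff h2, MP_8b7eba_nt.FixedNumberOfPrimes.R_eq] at h3
    refine ⟨D.natAbs, ?_, ?_, (Pool.Agent.V11291.AL.test2_of h2').2 h3⟩
    · have e : (L.getD 1 []).getD 0 0 = -5805 * D ^ 2 := by
        rw [h1]
        rfl
      rw [e]
      have h4 : (D.natAbs : ℤ) ≤ 5805 * D ^ 2 := by
        have h5 : (D.natAbs : ℤ) ^ 2 = D ^ 2 := Int.natAbs_sq D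
        have h6 : (0 : ℤ) ≤ (D.natAbs : ℤ) := Int.natCast_nonneg _
        rcases Nat.eq_zero_or_pos D.natAbs with h7 | h7
        · rw [h7]
          positivity
        · have h8 : (1 : ℤ) ≤ (D.natAbs : ℤ) := by exact_mod_cast h7
          nlinarith
      have h9 : (-(-5805 * D ^ 2)).toNat = (5805 * D ^ 2).toNat := by
        congr 1
        ring
      rw [h9]
      have h10 : D.natAbs ≤ (5805 * D ^ 2).toNat := by
        rw [Int.le_toNat (by positivity)]
        exact h4
      omega
    · rw [Pool.Agent.V11291.AL.DD_natAbs h2', h1, poly_eq]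

theorem tst_poly {D : ℤ} : tst (poly D) ↔ Adm D ∧ RankZeroShaTwo D := by
  rw [tst_iff]
  constructor
  · rintro ⟨D', h1, h2⟩
    rw [poly_inj h1]
    exact h2
  · intro h
    exact ⟨D, rfl, h⟩

theorem mem_zeros (D : ℤ) (p : ℚ × ℚ) : p ∈ Zeros (poly D) ↔
    p.2 ^ 2 = p.1 ^ 3 + 5805 * (D : ℚ) ^ 2 * p.1 - 285714 * (D : ℚ) ^ 3 := by
  unfold Zeros poly
  rw [Set.mem_ofPred_eq]
  simp only [List.length_cons, List.length_nil, Finset.sum_range_succ, Finset.sum_range_zero,
    List.getD_cons_zero, List.getD_cons_succ, List.getD_nil]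
  push_cast
  constructor
  · intro h
    linear_combination h
  · intro h
    linear_combination h

theorem nonsing {D : ℤ} (hD : D ≠ 0) {x y : ℚ}
    (h : y ^ 2 = x ^ 3 + 5805 * (D : ℚ) ^ 2 * x - 285714 * (D : ℚ) ^ 3) :
    (E D).toAffine.Nonsingular x y := by
  rw [WeierstrassCurve.Affine.nonsingular_iff, WeierstrassCurve.Affine.equation_iff]
  unfold E MP_8b7eba_nt.FixedNumberOfPrimes.A MP_8b7eba_nt.FixedNumberOfPrimes.B
  simp only
  push_cast
  refine ⟨by linear_combination h, Or.inl ?_⟩
  have hDq : (D : ℚ) ≠ 0 := by exact_mod_cast hD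
  have h1 : 0 < (D : ℚ) ^ 2 := by positivity
  have h2 : 0 ≤ x ^ 2 := sq_nonneg x
  intro h3
  nlinarith

theorem zeros_finite {D : ℤ} (hD : D ≠ 0) (h : Finite (E D).toAffine.Point) :
    (Zeros (poly D)).Finite := by
  let F : Zeros (poly D) → (E D).toAffine.Point := fun p =>
    .some p.1.1 p.1.2 (nonsing hD ((mem_zeros D p.1).1 p.2))
  have hF : Function.Injective F := by
    intro p q hpq
    have h1 := WeierstrassCurve.Affine.Point.some.inj hpq
    exact Subtype.ext (Prod.ext h1.1 h1.2)
  have : Finite (Zeros (poly D)) := Finite.of_injective F hF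
  exact Set.toFinite _

/-- **Main theorem.** There is an algorithm `g` on the polynomials with integral coefficients, halting on
all inputs, such that:
(1) if `g f = true` then `f` has only finitely many rational zeros;
(2) `g f = true` if and only if `f = y² - x³ - 5805 D² x + 285714 D³` with `D` in the class, `E_D(ℚ)`
finite and `Ш(E_D/ℚ)[2] = 0`;
(3) among the `D` of the class of the sign of `s = ±1`, ordered by absolute value, the proportion of
those with `g (poly D) = true` is exactly `c = ∏_{i ≥ 0} (1 - 2^{-(2 i + 1)})`, and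
`0.4194 < c < 0.4195`; there are at least a constant times `X (log X)^(-5/8)` members up to `X`;
(4) let `b` be even, `a + b ≥ 1`, and let `S` contain a positive lower proportion of the primes of each of
the kinds that occur: the number of the members of `Family S k a b` has the order of magnitude
`X (log log X)^(k + a + b - 1) / log X`, and the proportion of the members with `g (poly D) = true` tends
to `∏_{i < (k + 1) / 2} (1 - 2^{-(2 i + 1)})`;
(5) the condition on `S` holds for the residue classes `c` modulo `q`, with `q` prime to `14` and `c`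
prime to `q`. -/
theorem result :
    ∃ g : List (List ℤ) → Bool, Computable g ∧
      (∀ L, g L = true → (Zeros L).Finite) ∧
      (∀ L, g L = true ↔ ∃ D : ℤ, L = poly D ∧ Adm D ∧ RankZeroShaTwo D) ∧
      ((∀ s : ℤ, (s = 1 ∨ s = -1) →
        Tendsto (fun X : ℕ => (countSign s (fun D => g (poly D) = true) X : ℝ) /
          (countSign s (fun _ => True) X : ℝ)) atTop (𝓝 cc)) ∧
        (0.4194 < cc ∧ cc < 0.4195) ∧
        ∀ s : ℤ, (s = 1 ∨ s = -1) → ∃ (b : ℝ) (X₀ : ℕ), 0 < b ∧ ∀ X : ℕ, X₀ ≤ X →
          b * X * (Real.log X) ^ (-(5 / 8) : ℝ) ≤ (countSign s (fun _ => True) X : ℝ)) ∧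
      (∀ (S : Set ℕ) (k a b : ℕ), Even b → 1 ≤ a + b → Rich S k a b →
        Law S k a b fun D => g (poly D) = true) ∧
      ∀ q c : ℕ, Nat.Coprime q 14 → Nat.Coprime c q → ∀ k a b : ℕ,
        Rich {p | p % q = c % q} k a b := by
  classical
  obtain ⟨hd, hcomp⟩ := prim_tst.computablePred
  obtain ⟨r1, r2, -, r4⟩ := MP_8b7eba_nt.FixedNumberOfPrimes.result
  have hg : ∀ L, decide (tst L) = true ↔ tst L := fun L => decide_eq_true_iff
  refine ⟨fun L => decide (tst L), hcomp, fun L h => ?_, fun L => (hg L).trans (tst_iff L),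
    ⟨fun s hs => ?_, Pool.Agent.Y948.CQ.t_C2.2.2.2, fun s hs => Pool.Agent.V11291.F9.low hs⟩,
    fun S k a b hb hab hS => ?_, r4⟩
  · obtain ⟨D, rfl, h2, h3⟩ := (tst_iff L).1 ((hg L).1 h)
    exact zeros_finite h2.1.ne_zero h3.1
  · refine Pool.Agent.V11291.F9.prop1 hs (fun D => decide (tst (poly D)) = true) fun D hD _ => ?_
    have hD' : Adm D := hD
    rw [hg, tst_poly, MP_8b7eba_nt.FixedNumberOfPrimes.rzs_iff hD',
      MP_8b7eba_nt.FixedNumberOfPrimes.R_eq]
    exact and_iff_right hD'
  · obtain ⟨h1, h2⟩ := r2 S k a b hb hab hS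
    refine ⟨h1, ?_⟩
    have e : (fun D => Family S k a b D ∧ decide (tst (poly D)) = true) =
        fun D => Family S k a b D ∧ MP_8b7eba_nt.FixedNumberOfPrimes.Good D := by
      funext D
      refine propext (and_congr_right fun h => ?_)
      rw [hg, tst_poly, ← (r1 D h.1).1.symm.eq]
      exact ⟨fun h' => h'.2, fun h' => ⟨h.1, h'⟩⟩
    rw [e]
    exact h2

end Pool.Agent.Results.MP_d6ddbd_nt.InfinitudeForTwists
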